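import Pool.Agent.H71.AS.Banach
import Pool.Agent.H71.AS.Normed
import Pool.Agent.H71.AS.Separable
import Pool.Graph.R_seed8.Results.MP_17c4bf_an.AsplundProduct

/-!
# Factors of (weak) Asplund products: metrizable, separable and normed spaces

The definitions of `FrechetAt`, `GateauxAt`, `IsAsplund`, `IsWeakAsplund` (the ones of the problem)
and of `IsFDS`, `IsGDS` (Fréchet and Gâteaux differentiability spaces: a dense subset of `D` instead
of a dense `G_δ` subset) are those of the library module `R_seed8.H647R3.DA`. `Seq = FS (ULift ℕ)` is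
the space of the finitely supported real sequences with the topology of pointwise convergence: it is
locally convex, metrizable, of countable dimension, and not a Baire space.
-/

set_option autoImplicit false

open Topology TopologicalSpace

universe u v

namespace Pool.Agent.Results.MP_17c4bf_an.MetrizableSpaces

open H647R3.Fac Pool.Agent.H71.AS

theorem second_countable (E : Type u) [AddCommGroup E] [Module ℝ E] [TopologicalSpace E]
    [IsTopologicalAddGroup E] [ContinuousSMul ℝ E]
    (F : Type v) [AddCommGroup F] [Module ℝ F] [TopologicalSpace F] [IsTopologicalAddGroup F]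
    [ContinuousSMul ℝ F] (hE : MetrizableSpace E ∨ BaireSpace E)
    (hF1 : SecondCountableTopology F) (hF2 : BaireSpace F) :
    (IsAsplund (E × F) → IsAsplund E) ∧ (IsWeakAsplund (E × F) → IsWeakAsplund E) := by
  by_cases hB : BaireSpace E
  · exact baire_fst
  · have hM := hE.resolve_right hB
    exact ⟨fun h => (of_not_baire hB).1 (fds_of_prod h),
      fun h => (of_not_baire hB).2 (gds_of_prod h)⟩

/-- **Main theorem.** `E` and `F` are locally convex Hausdorff spaces.

(0) Q1 and Q2 have negative answers: `E × F` can be Asplund (and weak Asplund) although `E` is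
neither Asplund nor weak Asplund.
(1) If `E` is metrizable or a Baire space, and `F` is second countable and a Baire space, then `E` is
Asplund (weak Asplund) if `E × F` is.
(2) If `E` is metrizable and not a Baire space, then `E` is Asplund (weak Asplund) if `E × F` is,
for arbitrary `F`; and `E` is Asplund (weak Asplund) if and only if it is a Fréchet (Gâteaux)
differentiability space.
(3) If `E` is separable then `E` is weak Asplund if `E × F` is, for arbitrary `F`.
(4) If `E` is metrizable then `E × Seq` is Asplund if `E × F` is, for arbitrary `F`, and this is so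
if and only if `E` is a Fréchet differentiability space; the same for weak Asplund and Gâteaux.
(5) In particular: if `E` is metrizable then `E` is Asplund (weak Asplund) if `E × ℝ` is.
(6) If `E` is a normed space then `E` is Asplund if `E × F` is, for arbitrary `F`.
(7) There is a Banach space `E` which is not weak Asplund although `E × Seq` is weak Asplund. -/
theorem result :
    -- (0)
    (∃ (E : Type) (_ : AddCommGroup E) (_ : Module ℝ E) (_ : TopologicalSpace E)
      (_ : IsTopologicalAddGroup E) (_ : ContinuousSMul ℝ E) (_ : LocallyConvexSpace ℝ E)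
      (_ : T2Space E)
      (F : Type) (_ : AddCommGroup F) (_ : Module ℝ F) (_ : TopologicalSpace F)
      (_ : IsTopologicalAddGroup F) (_ : ContinuousSMul ℝ F) (_ : LocallyConvexSpace ℝ F)
      (_ : T2Space F), IsAsplund (E × F) ∧ IsWeakAsplund (E × F) ∧ ¬ IsAsplund E ∧
        ¬ IsWeakAsplund E) ∧
    (∀ (E : Type u) [AddCommGroup E] [Module ℝ E] [TopologicalSpace E] [IsTopologicalAddGroup E]
      [ContinuousSMul ℝ E] [LocallyConvexSpace ℝ E] [T2Space E]
      (F : Type v) [AddCommGroup F] [Module ℝ F] [TopologicalSpace F] [IsTopologicalAddGroup F]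
      [ContinuousSMul ℝ F] [LocallyConvexSpace ℝ F] [T2Space F],
      -- (1)
      ((MetrizableSpace E ∨ BaireSpace E) → SecondCountableTopology F → BaireSpace F →
        (IsAsplund (E × F) → IsAsplund E) ∧ (IsWeakAsplund (E × F) → IsWeakAsplund E)) ∧
      -- (2)
      (MetrizableSpace E → ¬ BaireSpace E →
        (IsAsplund (E × F) → IsAsplund E) ∧ (IsWeakAsplund (E × F) → IsWeakAsplund E) ∧
        (IsAsplund E ↔ IsFDS E) ∧ (IsWeakAsplund E ↔ IsGDS E)) ∧
      -- (3)
      (SeparableSpace E → IsWeakAsplund (E × F) → IsWeakAsplund E) ∧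
      -- (4)
      (MetrizableSpace E →
        (IsAsplund (E × F) → IsAsplund (E × Seq.{u})) ∧ (IsAsplund (E × Seq.{u}) ↔ IsFDS E) ∧
        (IsWeakAsplund (E × F) → IsWeakAsplund (E × Seq.{u})) ∧
        (IsWeakAsplund (E × Seq.{u}) ↔ IsGDS E))) ∧
    -- (5)
    (∀ (E : Type u) [AddCommGroup E] [Module ℝ E] [TopologicalSpace E] [IsTopologicalAddGroup E]
      [ContinuousSMul ℝ E] [LocallyConvexSpace ℝ E] [MetrizableSpace E],
      (IsAsplund (E × ℝ) → IsAsplund E) ∧ (IsWeakAsplund (E × ℝ) → IsWeakAsplund E)) ∧
    -- (6)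
    (∀ (E : Type u) [NormedAddCommGroup E] [NormedSpace ℝ E]
      (F : Type v) [AddCommGroup F] [Module ℝ F] [TopologicalSpace F] [IsTopologicalAddGroup F]
      [ContinuousSMul ℝ F] [LocallyConvexSpace ℝ F] [T2Space F],
      IsAsplund (E × F) → IsAsplund E) ∧
    -- (7)
    ∃ (E : Type) (_ : NormedAddCommGroup E) (_ : NormedSpace ℝ E),
      CompleteSpace E ∧ IsWeakAsplund (E × Seq.{0}) ∧ ¬ IsWeakAsplund E := by
  refine ⟨?_, ?_, fun E _ _ _ _ _ _ hM =>
    second_countable E ℝ (Or.inl hM) inferInstance inferInstance,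
    fun E _ _ F _ _ _ _ _ _ _ h => asplund_of_fds (fds_of_prod h), banach⟩
  · obtain ⟨E, a1, a2, a3, a4, a5, a6, a7, F, b1, b2, b3, b4, b5, b6, b7, h1, h2, h3⟩ :=
      Pool.Agent.Results.MP_17c4bf_an.AsplundProduct.result
    exact ⟨E, a1, a2, a3, a4, a5, a6, a7, F, b1, b2, b3, b4, b5, b6, b7, h1,
      weak_of_asplund h1, h2, h3⟩
  · intro E _ _ _ _ _ _ _ F _ _ _ _ _ _ _
    refine ⟨second_countable E F, ?_, fun hS h => weakAsplund_of_gds (gds_of_prod h), ?_⟩
    · intro hM hB
      exact ⟨fun h => (of_not_baire hB).1 (fds_of_prod h),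
        fun h => (of_not_baire hB).2 (gds_of_prod h),
        ⟨fds_of_asplund, (of_not_baire hB).1⟩, ⟨gds_of_weakAsplund, (of_not_baire hB).2⟩⟩
    · intro hM
      exact ⟨fun h => prod_seq.1.1 (fds_of_prod h), prod_seq.1.symm,
        fun h => prod_seq.2.1 (gds_of_prod h), prod_seq.2.symm⟩

end Pool.Agent.Results.MP_17c4bf_an.MetrizableSpaces
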